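import Pool.Agent.Helper38.DM.HenselFac

/-!
# DM-NP: the Newton-Puiseux theorem for monic polynomials over `F⟦z⟧`

PLAN.  Strong induction on `n`.  Write `x_u : F⟦z⟧ → F⟦s⟧` for `PowerSeries.expand u` (`z ↦ s^u`).
`n = 0`: `H = 1`.  `n = 1`: `H = Y - C a`.
`n ≥ 2`: substituting `Y → Y - a_{n-1}/n` (`Polynomial.taylor`/`comp (X - C b)`; splitting is preserved) we may
assume that the coefficient of `Y^{n-1}` is `0`.  If all lower coefficients vanish, `H = Y^n`.  Otherwise choose
`i₀ < n` with `a_{i₀} ≠ 0` minimising `ord(a_i)/(n-i)` (compare by cross multiplication), `m = n - i₀`,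
`N₀ = ord a_{i₀}`.  Apply `x_m`: `ord (x_m a_i) = m ord a_i ≥ (n-i) N₀` with equality for `i = i₀`
(`PowerSeries.order_expand`).  So `(x_m H)(s^{N₀} Y) = s^{N₀ n} H'(Y)` with `H'` monic of degree `n`, coefficients
`a'_i = x_m a_i / s^{N₀(n-i)}` in `F⟦s⟧`, `a'_{n-1} = 0`, `a'_{i₀}(0) ≠ 0`.  The reduction `h = H'(0, Y)` is monic of
degree `n`, has no `Y^{n-1}` term and is not `Y^n`, so it is not of the form `(Y-c)^n` (`-n c = 0` gives `c = 0`):
it is a product `(Y-c)^e h₂`, `h₂(c) ≠ 0`, `1 ≤ e < n` (`c` any root, `e` its multiplicity).  `hensel_fac`: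
`H' = H₁ H₂` of degrees `e, n-e < n`.  Let `u = m u'`; `m ∣ n!`, so `m (e!)^e ∣ (n!)^n ∣ u` for `e < n`
(`(e!)^e ∣ ((n-1)!)^(n-1) ∣ (n!)^(n-1)`), so `(e!)^e ∣ u'`, `((n-e)!)^(n-e) ∣ u'` and by induction `x_{u'} H_i`
split, hence `x_{u'} H'`, hence (multiply the roots by `x_{u'}(s^{N₀}) = s^{N₀ u'}`) `x_{u'} x_m H = x_u H`
(`PowerSeries.expand_mul`).
-/

/-! A convenient way to carry the induction is the equivalent statement with a multiset or list of roots:
`∃ s : Multiset (PowerSeries F), H.map _ = (s.map fun a => X - C a).prod`.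
-/

set_option autoImplicit false

open Polynomial Height
open scoped Polynomial.Bivariate

namespace Pool.Agent.Helper38.DM

/-- the coefficient of `Y^(n-1)` after a translation -/
private theorem np_taylor_coeff {R : Type*} [CommRing R] {H : R[X]} {n : ℕ} (hH : H.Monic)
    (hn : H.natDegree = n + 1) (b : R) :
    (H.taylor b).coeff n = H.coeff n + (n + 1 : ℕ) * b := by
  rw [taylor_coeff, eval_eq_sum_range' (n := 2)]
  · rw [Finset.sum_range_succ, Finset.sum_range_one, hasseDeriv_coeff, hasseDeriv_coeff]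
    have h1 : H.coeff (1 + n) = 1 := by
      rw [add_comm, ← hn]; exact hH
    rw [h1]
    simp [Nat.choose_succ_self_right, add_comm]
  · refine Nat.lt_succ_of_le ((natDegree_hasseDeriv_le H n).trans ?_)
    omega

/-- dividing the exponents -/
private theorem np_dvd {n m e u' : ℕ} (hm0 : m ≠ 0) (hm : m ≤ n) (he : e < n)
    (hu : n.factorial ^ n ∣ m * u') : e.factorial ^ e ∣ u' := by
  obtain ⟨k, rfl⟩ : ∃ k, n = k + 1 := ⟨n - 1, by omega⟩
  have h1 : m ∣ (k + 1).factorial := Nat.dvd_factorial (Nat.pos_of_ne_zero hm0) hm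
  have h2 : e.factorial ^ e ∣ (k + 1).factorial ^ k :=
    (pow_dvd_pow_of_dvd (Nat.factorial_dvd_factorial (by omega)) e).trans
      (pow_dvd_pow _ (by omega))
  have h3 : m * e.factorial ^ e ∣ m * u' := by
    refine (mul_dvd_mul h1 h2).trans ?_
    rw [← pow_succ']
    exact hu
  exact Nat.dvd_of_mul_dvd_mul_left (Nat.pos_of_ne_zero hm0) h3

/-- the slope: choose the vertex -/
private theorem np_vertex {F : Type} [Field F] (G : Polynomial (PowerSeries F)) {n : ℕ}
    (hne : ∃ i < n, G.coeff i ≠ 0) :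
    ∃ i₀ < n, G.coeff i₀ ≠ 0 ∧ ∀ i < n, G.coeff i ≠ 0 →
      (G.coeff i₀).order.toNat * (n - i) ≤ (n - i₀) * (G.coeff i).order.toNat := by
  classical
  obtain ⟨i₁, hi₁, hi₁'⟩ := hne
  obtain ⟨i₀, hi₀, hmin⟩ := Finset.exists_min_image
    ((Finset.range n).filter fun i => G.coeff i ≠ 0)
    (fun i => ((G.coeff i).order.toNat : ℚ) / ((n - i : ℕ) : ℚ))
    ⟨i₁, by simp [hi₁, hi₁']⟩
  simp only [Finset.mem_filter, Finset.mem_range] at hi₀ hmin
  refine ⟨i₀, hi₀.1, hi₀.2, fun i hi hi' => ?_⟩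
  have h1 := hmin i ⟨hi, hi'⟩
  have h2 : (0 : ℚ) < ((n - i₀ : ℕ) : ℚ) := by
    exact_mod_cast Nat.sub_pos_of_lt hi₀.1
  have h3 : (0 : ℚ) < ((n - i : ℕ) : ℚ) := by
    exact_mod_cast Nat.sub_pos_of_lt hi
  rw [div_le_div_iff₀ h2 h3] at h1
  have h4 : ((G.coeff i₀).order.toNat * (n - i) : ℕ) ≤ (G.coeff i).order.toNat * (n - i₀) := by
    exact_mod_cast h1
  rw [mul_comm (n - i₀)]
  exact h4

private theorem np_expand_dvd {F : Type} [Field F] {m : ℕ} (hm : m ≠ 0) {a : PowerSeries F}
    {k : ℕ} (h : a ≠ 0 → k ≤ m * a.order.toNat) :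
    (PowerSeries.X : PowerSeries F) ^ k ∣ PowerSeries.expand m hm a := by
  by_cases ha : a = 0
  · rw [ha, map_zero]; exact dvd_zero _
  · obtain ⟨b, hb⟩ := PowerSeries.X_pow_order_dvd (φ := a)
    have h1 : PowerSeries.expand m hm a =
        PowerSeries.X ^ (m * a.order.toNat) * PowerSeries.expand m hm b := by
      conv_lhs => rw [hb]
      rw [map_mul, map_pow, PowerSeries.expand_X, ← pow_mul]
    rw [h1]
    exact (pow_dvd_pow _ (h ha)).trans (dvd_mul_right _ _)

/-- the step: a monic polynomial without `Y^(n-1)` term -/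
private theorem np_step {F : Type} [Field F] [IsAlgClosed F] [CharZero F] (n : ℕ) (hn0 : n ≠ 0)
    (ih : ∀ e < n, ∀ H : Polynomial (PowerSeries F), H.Monic → H.natDegree = e → ∀ (u : ℕ)
      (hu0 : u ≠ 0), e.factorial ^ e ∣ u →
      (H.map (PowerSeries.expand u hu0 : PowerSeries F →ₐ[F] PowerSeries F).toRingHom).Splits)
    (G : Polynomial (PowerSeries F)) (hG : G.Monic) (hn : G.natDegree = n)
    (hc : G.coeff (n - 1) = 0) (u : ℕ) (hu0 : u ≠ 0) (hu : n.factorial ^ n ∣ u) :
    (G.map (PowerSeries.expand u hu0 : PowerSeries F →ₐ[F] PowerSeries F).toRingHom).Splits := by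
  classical
  by_cases hne : ∃ i < n, G.coeff i ≠ 0
  swap
  · push Not at hne
    have h1 : G = X ^ n := by
      ext i : 1
      rw [coeff_X_pow]
      rcases lt_trichotomy i n with h | h | h
      · rw [hne i h, if_neg (by omega)]
      · subst h
        rw [if_pos rfl, ← hn]; exact hG
      · rw [coeff_eq_zero_of_natDegree_lt (by omega), if_neg (by omega)]
    rw [h1, Polynomial.map_pow, Polynomial.map_X]
    exact Splits.X_pow n
  obtain ⟨i₀, hi₀, hne₀, hmin⟩ := np_vertex G hne
  set m : ℕ := n - i₀ with hm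
  have hm0 : m ≠ 0 := by omega
  set N₀ : ℕ := (G.coeff i₀).order.toNat with hN₀
  have hdvd : ∀ i, ∃ a, i < n → PowerSeries.expand m hm0 (G.coeff i) =
      PowerSeries.X ^ (N₀ * (n - i)) * a := by
    intro i
    by_cases hi : i < n
    · obtain ⟨a, ha⟩ := np_expand_dvd hm0 (a := G.coeff i) (k := N₀ * (n - i)) (hmin i hi)
      exact ⟨a, fun _ => ha⟩
    · exact ⟨0, fun h => absurd h hi⟩
  choose a ha using hdvd
  -- the new polynomial
  set H' : Polynomial (PowerSeries F) := X ^ n + ∑ i ∈ Finset.range n, monomial i (a i) with hH'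
  have hlow : (∑ i ∈ Finset.range n, monomial i (a i)).degree < (n : WithBot ℕ) := by
    refine mem_degreeLT.1 (Submodule.sum_mem _ fun i hi => mem_degreeLT.2 ?_)
    refine (degree_monomial_le i _).trans_lt ?_
    exact_mod_cast Finset.mem_range.1 hi
  have hH'm : H'.Monic := monic_X_pow_add hlow
  have hH'n : H'.natDegree = n := by
    rw [hH', natDegree_add_eq_left_of_degree_lt (by rw [degree_X_pow]; exact hlow),
      natDegree_X_pow]
  have hH'c : ∀ i < n, H'.coeff i = a i := by
    intro i hi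
    rw [hH', coeff_add, coeff_X_pow, if_neg (by omega), zero_add, finsetSum_coeff]
    simp only [coeff_monomial]
    rw [Finset.sum_ite_eq' (Finset.range n) i a, if_pos (Finset.mem_range.2 hi)]
  have hscale : G.map (PowerSeries.expand m hm0 : PowerSeries F →ₐ[F] PowerSeries F).toRingHom =
      H'.scaleRoots (PowerSeries.X ^ N₀) := by
    ext i : 1
    rw [coeff_map, coeff_scaleRoots, hH'n]
    rcases lt_trichotomy i n with h | h | h
    · rw [hH'c i h, ← pow_mul, mul_comm (a i)]
      exact ha i h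
    · subst h
      have h1 : G.coeff i = 1 := by rw [← hn]; exact hG
      have h2 : H'.coeff i = 1 := by rw [← hH'n]; exact hH'm
      rw [h1, h2, map_one, Nat.sub_self, pow_zero, mul_one]
    · rw [coeff_eq_zero_of_natDegree_lt (by omega), coeff_eq_zero_of_natDegree_lt (by omega),
        map_zero, zero_mul]
  -- reduction
  set h : F[X] := H'.map PowerSeries.constantCoeff with hh
  have hhm : h.Monic := hH'm.map _
  have hhn : h.natDegree = n := by rw [hh, hH'm.natDegree_map, hH'n]
  have hh1 : h.coeff (n - 1) = 0 := by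
    have h1 := ha (n - 1) (by omega)
    rw [hc, map_zero] at h1
    have h2 : a (n - 1) = 0 := by
      rcases mul_eq_zero.1 h1.symm with h3 | h3
      · exact absurd h3 (pow_ne_zero _ PowerSeries.X_ne_zero)
      · exact h3
    rw [hh, coeff_map, hH'c _ (by omega), h2, map_zero]
  have hh0 : h.coeff i₀ ≠ 0 := by
    rw [hh, coeff_map, hH'c i₀ hi₀]
    intro h1
    rw [← PowerSeries.X_dvd_iff] at h1
    obtain ⟨b, hb⟩ := h1
    have h2 := ha i₀ hi₀
    rw [hb, ← mul_assoc, ← pow_succ] at h2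
    have h3 := congrArg (PowerSeries.coeff (m * N₀)) h2
    have h5 : ¬ (N₀ * (n - i₀) + 1 ≤ m * N₀) := by
      rw [← hm, mul_comm m N₀]
      omega
    rw [PowerSeries.coeff_expand_mul, PowerSeries.coeff_X_pow_mul', if_neg h5] at h3
    have h4 := PowerSeries.coeff_order (φ := G.coeff i₀) hne₀
    exact h4 h3
  -- a root and its multiplicity
  obtain ⟨c, hcr⟩ := IsAlgClosed.exists_root h (by
    rw [degree_eq_natDegree hhm.ne_zero, hhn]
    exact_mod_cast hn0)
  have hh0' : h ≠ 0 := hhm.ne_zero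
  obtain ⟨h₂, hh₂, hh₂c⟩ := exists_eq_pow_rootMultiplicity_mul_and_not_dvd h hh0' c
  set e : ℕ := h.rootMultiplicity c with he
  have he0 : 0 < e := (rootMultiplicity_pos hh0').2 hcr
  have hh₂m : h₂.Monic := by
    have h1 : ((X - C c) ^ e * h₂).Monic := hh₂ ▸ hhm
    exact ((monic_X_sub_C c).pow e).of_mul_monic_left h1
  have hdeg : e + h₂.natDegree = n := by
    have h1 := congrArg natDegree hh₂
    rw [((monic_X_sub_C c).pow e).natDegree_mul hh₂m, natDegree_pow, natDegree_X_sub_C, mul_one,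
      hhn] at h1
    exact h1.symm
  have hen : e < n := by
    by_contra h1
    have h2 : h₂.natDegree = 0 := by omega
    have h3 : h₂ = 1 := hh₂m.natDegree_eq_zero.1 h2
    have h4 : e = n := by omega
    rw [h3, mul_one, h4] at hh₂
    obtain ⟨k, rfl⟩ : ∃ k, n = k + 1 := ⟨n - 1, by omega⟩
    have h5 : h.coeff k = -((k + 1 : ℕ) : F) * c := by
      rw [hh₂, sub_eq_add_neg, ← C_neg, coeff_X_add_C_pow]
      simp [Nat.choose_succ_self_right]
      ring
    have h6 : c = 0 := by
      rw [Nat.add_sub_cancel] at hh1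
      rw [hh1] at h5
      have h7 : ((k + 1 : ℕ) : F) ≠ 0 := Nat.cast_ne_zero.2 (by omega)
      rcases mul_eq_zero.1 h5.symm with h8 | h8
      · exact absurd (neg_eq_zero.1 h8) h7
      · exact h8
    rw [h6, C_0, sub_zero] at hh₂
    apply hh0
    rw [hh₂, coeff_X_pow, if_neg (by omega)]
  have hcop : IsCoprime ((X - C c) ^ e) h₂ := by
    refine IsCoprime.pow_left ?_
    exact (EuclideanDomain.dvd_or_coprime _ _ (irreducible_X_sub_C c)).resolve_left hh₂c
  obtain ⟨H₁, H₂, hm₁, hm₂, hd₁, hd₂, hH₁₂⟩ := hensel_fac H' hH'm _ h₂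
    ((monic_X_sub_C c).pow e) hh₂m hcop hh₂
  rw [natDegree_pow, natDegree_X_sub_C, mul_one] at hd₁
  have hmu : m ∣ u := by
    refine dvd_trans ?_ hu
    refine (Nat.dvd_factorial (Nat.pos_of_ne_zero hm0) (by omega)).trans (dvd_pow_self _ hn0)
  obtain ⟨u', rfl⟩ := hmu
  have hu'0 : u' ≠ 0 := right_ne_zero_of_mul hu0
  have hs₁ := ih e hen H₁ hm₁ hd₁ u' hu'0 (np_dvd hm0 (by omega) hen hu)
  have hs₂ := ih h₂.natDegree (by omega) H₂ hm₂ hd₂ u' hu'0 (np_dvd hm0 (by omega) (by omega) hu)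
  have hcomp : (PowerSeries.expand (m * u') hu0 : PowerSeries F →ₐ[F] PowerSeries F).toRingHom =
      (PowerSeries.expand u' hu'0 : PowerSeries F →ₐ[F] PowerSeries F).toRingHom.comp
        (PowerSeries.expand m hm0 : PowerSeries F →ₐ[F] PowerSeries F).toRingHom := by
    ext1 x
    have h1 := PowerSeries.expand_mul u' hu'0 m hm0 x
    have h2 : ∀ (q : ℕ) (hq : q ≠ 0), q = m * u' → PowerSeries.expand q hq x =
        PowerSeries.expand (m * u') hu0 x := by
      rintro q hq rfl
      rfl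
    exact (h2 _ _ (mul_comm u' m)).symm.trans h1
  rw [hcomp, ← Polynomial.map_map, hscale, map_scaleRoots _ _ _ (by
    rw [hH'm.leadingCoeff, map_one]; exact one_ne_zero), hH₁₂, Polynomial.map_mul]
  exact (hs₁.mul hs₂).scaleRoots _

theorem newton_puiseux {F : Type} [Field F] [IsAlgClosed F] [CharZero F] (n : ℕ)
    (H : Polynomial (PowerSeries F)) (hH : H.Monic) (hn : H.natDegree = n) (u : ℕ)
    (hu : n.factorial ^ n ∣ u) (hu0 : u ≠ 0) :
    ∃ r : Fin n → PowerSeries F,
      H.map (PowerSeries.expand u hu0 : PowerSeries F →ₐ[F] PowerSeries F).toRingHom =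
        ∏ j, (Polynomial.X - Polynomial.C (r j)) := by
  have key : ∀ n : ℕ, ∀ H : Polynomial (PowerSeries F), H.Monic → H.natDegree = n → ∀ (u : ℕ)
      (hu0 : u ≠ 0), n.factorial ^ n ∣ u →
      (H.map (PowerSeries.expand u hu0 : PowerSeries F →ₐ[F] PowerSeries F).toRingHom).Splits := by
    intro n
    induction n using Nat.strong_induction_on with
    | _ n ih =>
      intro H hH hn u hu0 hu
      rcases Nat.eq_zero_or_pos n with h0 | h0
      · exact Splits.of_natDegree_eq_zero (by rw [hH.natDegree_map, hn, h0])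
      obtain ⟨k, rfl⟩ : ∃ k, n = k + 1 := ⟨n - 1, by omega⟩
      set b : PowerSeries F := -(PowerSeries.C ((k + 1 : ℕ) : F)⁻¹ * H.coeff k) with hb
      have h1 : (H.taylor b).coeff k = 0 := by
        rw [np_taylor_coeff hH hn, hb]
        have h2 : ((k + 1 : ℕ) : PowerSeries F) = PowerSeries.C ((k + 1 : ℕ) : F) := by simp
        have h3 : PowerSeries.C ((k + 1 : ℕ) : F) * PowerSeries.C ((k + 1 : ℕ) : F)⁻¹ = 1 := by
          rw [← map_mul, mul_inv_cancel₀ (Nat.cast_ne_zero.2 (by omega)), map_one]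
        rw [h2, mul_neg, ← mul_assoc, h3, one_mul, add_neg_cancel]
      have h2 := np_step (k + 1) (by omega) ih (H.taylor b) (by
          rw [Monic, leadingCoeff_taylor]; exact hH) (by rw [natDegree_taylor, hn])
        (by rw [Nat.add_sub_cancel]; exact h1) u hu0 hu
      have h3 : H.map (PowerSeries.expand u hu0 : PowerSeries F →ₐ[F] PowerSeries F).toRingHom =
          ((H.taylor b).map (PowerSeries.expand u hu0 : PowerSeries F →ₐ[F]
            PowerSeries F).toRingHom).taylor (-((PowerSeries.expand u hu0 : PowerSeries F →ₐ[F]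
            PowerSeries F).toRingHom b)) := by
        rw [map_taylor, taylor_taylor, neg_add_cancel, taylor_zero]
      rw [h3]
      exact h2.taylor _
  have hs := key n H hH hn u hu0 hu
  set P := H.map (PowerSeries.expand u hu0 : PowerSeries F →ₐ[F] PowerSeries F).toRingHom with hP
  have hPm : P.Monic := hH.map _
  have hPn : P.natDegree = n := by rw [hP, hH.natDegree_map, hn]
  have h1 := hs.eq_prod_roots_of_monic hPm
  have h2 := hs.natDegree_eq_card_roots
  rw [hPn] at h2
  have h3 : P.roots.toList.length = n := by rw [Multiset.length_toList, ← h2]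
  refine ⟨fun j => P.roots.toList.get (Fin.cast h3.symm j), ?_⟩
  rw [← Fin.prod_congr' _ h3]
  have h4 : (P.roots.toList.map fun a => X - C a).prod = P := by
    conv_rhs => rw [h1]
    rw [← Multiset.prod_coe, ← Multiset.map_coe, Multiset.coe_toList]
  conv_lhs => rw [← h4]
  rw [← Fin.prod_univ_fun_getElem]
  rfl

end Pool.Agent.Helper38.DM
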