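import Pool.Agent.Helper38.DM.Defs

/-!
Definitions for the Thue-Siegel part (section 1 of the plan).
-/

set_option autoImplicit false

open Polynomial Height
open scoped Polynomial.Bivariate

namespace Pool.Agent.Helper38.DM

/-- the value of the auxiliary polynomial
`F = ∑ F_{abce} X^a Y^b X'^c Y'^e` (`a ≤ N₁`, `b < D`, `c, e ≤ N`) at
`(x₀ + s, y(s); x₁, y₁)` -/
noncomputable def GG {K : Type} [Field K] (N₁ D N : ℕ) (F : ℕ → ℕ → ℕ → ℕ → K) (x₀ : K)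
    (y : PowerSeries K) (x₁ y₁ : K) : PowerSeries K :=
  ∑ a ∈ Finset.range (N₁ + 1), ∑ b ∈ Finset.range D, ∑ c ∈ Finset.range (N + 1),
    ∑ e ∈ Finset.range (N + 1),
      PowerSeries.C (F a b c e * x₁ ^ c * y₁ ^ e) * (PowerSeries.C x₀ + PowerSeries.X) ^ a * y ^ b

/-- the vanishing conditions of the auxiliary polynomial along the branch
`X = t^{-q}, Y = U(t)` (multiplied by `t^{q N₁} t'^{q N}`): the coefficients of
`t^i t'^j` with `i < N₁ M₀` and `j < N M₀` vanish -/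
def Van {K : Type} [Field K] (N₁ D N M₀ q : ℕ) (F : ℕ → ℕ → ℕ → ℕ → K) (U : PowerSeries K) :
    Prop :=
  ∀ i < N₁ * M₀, ∀ j < N * M₀,
    ∑ a ∈ Finset.range (N₁ + 1), ∑ b ∈ Finset.range D, ∑ c ∈ Finset.range (N + 1),
      ∑ e ∈ Finset.range (N + 1), F a b c e *
        PowerSeries.coeff i (PowerSeries.X ^ (q * (N₁ - a)) * U ^ b) *
        PowerSeries.coeff j (PowerSeries.X ^ (q * (N - c)) * U ^ e) = 0

/-- The data of the theorem of Thue-Siegel type on a plane curve. -/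
structure TSData (K : Type) [Field K] [NumberField K] where
  /-- the curve -/
  Q : K[X][Y]
  irr : Irreducible Q
  hD : 1 ≤ Q.natDegree
  /-- the ratio of the heights of consecutive points -/
  d : ℕ
  hd : 2 ≤ d
  /-- indices of the points -/
  J : Set ℕ
  hJ : J.Infinite
  /-- first coordinates -/
  x : ℕ → K
  /-- second coordinates -/
  y : ℕ → K
  inj : Set.InjOn x J
  zero : ∀ n ∈ J, Q.evalEval (x n) (y n) = 0
  /-- the places at which `x n` is unbounded -/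
  S : Set (AbsoluteValue K ℝ)
  hS : ∀ v ∈ S, IsPlace v
  hSne : S.Nonempty
  hSfin : S.Finite
  /-- growth rates -/
  Γ : AbsoluteValue K ℝ → ℝ
  Γpos : ∀ v ∈ S, 0 < Γ v
  /-- constants -/
  cx : Const K
  esc : ∀ v ∈ S, ∀ n ∈ J, |Real.log (v (x n)) - Γ v * (d : ℝ) ^ n| ≤ cx.c v
  bdd : ∀ v, IsPlace v → v ∉ S → ∀ n ∈ J, Real.posLog (v (x n)) ≤ cx.c v
  /-- bound for the heights of the second coordinates -/
  κ : ℕ
  hκ : ∃ C : ℝ, ∀ n ∈ J, logHeight₁ (y n) ≤ κ * logHeight₁ (x n) + C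
  /-- ramification of the branches -/
  q : ℕ
  hq : 1 ≤ q
  /-- the branches -/
  RR : Finset (PowerSeries K)
  card : RR.card ≤ Q.natDegree
  br : ∀ U ∈ RR, IsBranch Q q U
  nice : ∀ U ∈ RR, Nice U
  loc : ∀ v ∈ S, ∃ U ∈ RR, ∃ (Ω : Type) (_ : NormedField Ω) (_ : CompleteSpace Ω) (φ : K →+* Ω),
    (∀ z, ‖φ z‖ = v z) ∧ (∃ C : ℝ, ∀ l, ‖φ (PowerSeries.coeff l U)‖ ≤ C ^ (l + 1)) ∧
    ∀ n ∈ J, ∃ t : Ω, t ≠ 0 ∧ (t ^ q)⁻¹ = φ (x n) ∧
      HasSum (fun l => φ (PowerSeries.coeff l U) * t ^ l) (φ (y n))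

end Pool.Agent.Helper38.DM
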