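import Mathlib

/-!
Basic definitions for the project DM (MP_28f5fb_ag).

Bivariate polynomials are elements of `K[X][Y] = Polynomial (Polynomial K)`: the inner variable is
`X`, the outer variable is `Y`; `Q.evalEval x y` is the value at the point `(x, y)`;
`(Q.coeff b).coeff a` is the coefficient of `X^a Y^b`.
-/

set_option autoImplicit false

open Polynomial Height
open scoped Polynomial.Bivariate

namespace Pool.Agent.Helper38.DM

/-- the `X`-degree of a bivariate polynomial -/
noncomputable def degX {K : Type} [CommRing K] (Q : K[X][Y]) : ℕ :=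
  Q.support.sup fun b => (Q.coeff b).natDegree

/-- irreducible over every extension field -/
def AbsIrr {K : Type} [Field K] (Q : K[X][Y]) : Prop :=
  ∀ (F : Type) [Field F] (φ : K →+* F), Irreducible (Q.map (Polynomial.mapRingHom φ))

/-- `v` is one of the absolute values of the number field `K` in the product formula -/
def IsPlace {K : Type} [Field K] [NumberField K] (v : AbsoluteValue K ℝ) : Prop :=
  v ∈ AdmissibleAbsValues.archAbsVal (K := K) ∨ v ∈ AdmissibleAbsValues.nonarchAbsVal (K := K)

/-- A family of real constants `c v ≥ 0`, one for each place, almost all equal to `0`. -/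
structure Const (K : Type) [Field K] [NumberField K] where
  /-- the constants -/
  c : AbsoluteValue K ℝ → ℝ
  nonneg : ∀ v, 0 ≤ c v
  finite : {v : AbsoluteValue K ℝ | v ∈ AdmissibleAbsValues.nonarchAbsVal (K := K) ∧
    c v ≠ 0}.Finite

/-- the sum over all places (with multiplicity at the archimedean ones) -/
noncomputable def tot {K : Type} [Field K] [NumberField K] (c : AbsoluteValue K ℝ → ℝ) : ℝ :=
  ((AdmissibleAbsValues.archAbsVal (K := K)).map c).sum +
    ∑ᶠ v : AdmissibleAbsValues.nonarchAbsVal (K := K), c v.1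

/-- substitution of `x₀ + s` for `X`, as a ring homomorphism `K[X] → K⟦s⟧` -/
noncomputable def tay {K : Type} [Field K] (x₀ : K) : K[X] →+* PowerSeries K :=
  (Polynomial.aeval (PowerSeries.C x₀ + PowerSeries.X : PowerSeries K)).toRingHom

/-- the value of `R ∈ K[X][Y]` at `(x₀ + s, y(s))` -/
noncomputable def sub {K : Type} [Field K] (x₀ : K) (y : PowerSeries K) (R : K[X][Y]) :
    PowerSeries K :=
  Polynomial.eval₂ (tay x₀) y R

/-- `Q^*(z, Y) = z^{degX Q} Q(1/z, Y)`: reverse the polynomial with respect to `X` -/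
noncomputable def revX {K : Type} [CommRing K] (Q : K[X][Y]) : K[X][Y] :=
  ∑ b ∈ Finset.range (Q.natDegree + 1), Polynomial.monomial b ((Q.coeff b).reflect (degX Q))

/-- substitution of a power series `w(t)` for the inner variable -/
noncomputable def inn {K : Type} [CommRing K] (w : PowerSeries K) : K[X] →+* PowerSeries K :=
  (Polynomial.aeval w).toRingHom

/-- `X = t^{-q}, Y = U(t)` is a branch of the curve `Q = 0` at `X = ∞`:
`Q^*(t^q, U(t)) = 0` -/
def IsBranch {K : Type} [CommRing K] (Q : K[X][Y]) (q : ℕ) (U : PowerSeries K) : Prop :=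
  Polynomial.eval₂ (inn (PowerSeries.X ^ q)) U (revX Q) = 0

/-- coefficients with controlled denominators and conjugates -/
def Nice {K : Type} [Field K] (U : PowerSeries K) : Prop :=
  ∃ Δ C : ℕ, 0 < Δ ∧ ∀ l : ℕ,
    IsIntegral ℤ ((Δ : K) ^ (C * (l + 1)) * PowerSeries.coeff l U) ∧
    ∀ ψ : K →+* ℂ, ‖ψ (PowerSeries.coeff l U)‖ ≤ (C : ℝ) ^ (l + 1)

/-- `U` is algebraic over `K(t)` -/
def AlgSer {K : Type} [CommRing K] (U : PowerSeries K) : Prop :=
  ∃ G : K[X][Y], G ≠ 0 ∧ Polynomial.eval₂ (inn PowerSeries.X) U G = 0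

end Pool.Agent.Helper38.DM
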