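import Pool.Agent.Helper38.DM.TSDefs

/-!
Definitions for sections 2-4 of the project DM (MP_28f5fb_ag).
-/

set_option autoImplicit false

open Polynomial Height
open scoped Polynomial.Bivariate

namespace Pool.Agent.Helper38.DM

/-- the coefficient of `X^{degX P}` of `P`, a polynomial in `Y` -/
noncomputable def topX {K : Type} [CommRing K] (P : K[X][Y]) : K[X] :=
  ∑ b ∈ Finset.range (P.natDegree + 1), Polynomial.monomial b ((P.coeff b).coeff (degX P))

/-- homogeneous substitution `V^n p(U/V)` -/
noncomputable def hs {R : Type} [CommRing R] (n : ℕ) (p U V : R[X]) : R[X] :=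
  ∑ i ∈ Finset.range (n + 1), Polynomial.C (p.coeff i) * U ^ i * V ^ (n - i)

/-- numerator and denominator of the `k`-th iterate of `A / B` (of degree `d`) -/
noncomputable def itAB {R : Type} [CommRing R] (d : ℕ) (A B : R[X]) : ℕ → R[X] × R[X]
  | 0 => (Polynomial.X, 1)
  | k + 1 => (hs d A (itAB d A B k).1 (itAB d A B k).2, hs d B (itAB d A B k).1 (itAB d A B k).2)

/-- `A_k - y₀ B_k`, whose roots are the preimages of `y₀` under the `k`-th iterate -/
noncomputable def fib {R : Type} [CommRing R] (d : ℕ) (A B : R[X]) (k : ℕ) (y₀ : R) : R[X] :=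
  (itAB d A B k).1 - Polynomial.C y₀ * (itAB d A B k).2

/-- `y₀` is fixed by the `l`-th iterate of `A / B`, with multiplicity `e`, `2 ≤ e < d^l` -/
def Bad {F : Type} [Field F] (d : ℕ) (A B : F[X]) (y₀ : F) (l : ℕ) : Prop :=
  1 ≤ l ∧ 2 ≤ (fib d A B l y₀).rootMultiplicity y₀ ∧ (fib d A B l y₀).rootMultiplicity y₀ < d ^ l

/-- no root of `topX P` has `∞` among its preimages under the `i`-th iterate of `A / B`, `i ≤ k` -/
def NoInf {K : Type} [Field K] (d : ℕ) (A B : K[X]) (P : K[X][Y]) (k : ℕ) : Prop :=
  ∀ (F : Type) [Field F] (φ : K →+* F) (y₀ : F), ((topX P).map φ).IsRoot y₀ →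
    ∀ i ≤ k, (fib d (A.map φ) (B.map φ) i y₀).natDegree = d ^ i

/-- `A / B` in the coordinate `y'`, `y = lam + 1 / y'`: the numerator -/
noncomputable def moA {R : Type} [CommRing R] (d : ℕ) (_A B : R[X]) (lam : R) : R[X] :=
  hs d B (Polynomial.C lam * Polynomial.X + 1) Polynomial.X

/-- `A / B` in the coordinate `y'`, `y = lam + 1 / y'`: the denominator -/
noncomputable def moB {R : Type} [CommRing R] (d : ℕ) (A B : R[X]) (lam : R) : R[X] :=
  hs d A (Polynomial.C lam * Polynomial.X + 1) Polynomial.X -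
    Polynomial.C lam * hs d B (Polynomial.C lam * Polynomial.X + 1) Polynomial.X

/-- the curve `P = 0` in the coordinates `x, y'`, `y = lam + 1 / y'` -/
noncomputable def moP {K : Type} [Field K] (P : K[X][Y]) (lam : K) : K[X][Y] :=
  hs P.natDegree P (Polynomial.C (Polynomial.C lam) * Polynomial.X + 1) Polynomial.X

/-- the factor of the ramification index which comes from `A / B` -/
def ram (d : ℕ) : ℕ := (2 ^ (2 * d - 2)).factorial

/-- the ramification index -/
def qq (d D : ℕ) : ℕ := D.factorial ^ D * ram d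

/-- The formal series at `X = ∞` needed for the pairs `(f^k, (A/B)^k)` and the curve `P`. -/
def FormalData {L : Type} [Field L] (d q : ℕ) (f A B : L[X]) (P : L[X][Y]) (k : ℕ) : Prop :=
  ∃ (z c : PowerSeries L) (r : Fin P.natDegree → PowerSeries L),
    z * inn (PowerSeries.X ^ q) ((f.comp^[k] Polynomial.X).reverse) = PowerSeries.X ^ (q * d ^ k) ∧
    (revX P).map (inn z) = Polynomial.C c * ∏ j, (Polynomial.X - Polynomial.C (r j)) ∧
    PowerSeries.constantCoeff c ≠ 0 ∧
    (∀ j, r j ≠ PowerSeries.C (PowerSeries.constantCoeff (r j))) ∧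
    ∀ j, (∃ l, Bad d A B (PowerSeries.constantCoeff (r j)) l) ∨
      ∃ (lc : PowerSeries L) (V : Fin (d ^ k) → PowerSeries L),
        PowerSeries.constantCoeff lc ≠ 0 ∧
        (itAB d A B k).1.map PowerSeries.C - Polynomial.C (r j) * (itAB d A B k).2.map PowerSeries.C
          = Polynomial.C lc * ∏ i, (Polynomial.X - Polynomial.C (V i))

/-- the value of a power series at a point of a normed field -/
noncomputable def evS {K Ω : Type} [Field K] [NormedField Ω] (φ : K →+* Ω) (t : Ω)
    (U : PowerSeries K) : Ω :=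
  ∑' l, φ (PowerSeries.coeff l U) * t ^ l

/-- the value of a polynomial with power series coefficients at the point `(t, y)` -/
noncomputable def evP {K Ω : Type} [Field K] [NormedField Ω] (φ : K →+* Ω) (t y : Ω)
    (H : Polynomial (PowerSeries K)) : Ω :=
  ∑ b ∈ Finset.range (H.natDegree + 1), evS φ t (H.coeff b) * y ^ b

end Pool.Agent.Helper38.DM
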