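import Pool.Agent.Helper38.DM.Defs2

/-!
# DM-HenselFac: lifting a coprime factorisation of a monic polynomial to power series

PLAN.  Write `H = ∑_l H^(l) t^l` with `H^(l) ∈ F[Y]` (coefficient `b` of `H^(l)` = coefficient `l` of
`H.coeff b`), `H^(0) = h₁ h₂`, `deg H^(l) < n := deg H` for `l ≥ 1` (`H` monic).  Let `e = deg h₁`,
`e' = deg h₂`.  As `h₁, h₂` are coprime, every `c ∈ F[Y]` of degree `< e + e'` is `h₁ b + h₂ a` with `deg a < e`,
`deg b < e'` (Bezout, then reduce `a` mod `h₁` with `%ₘ`; the degree of `b` follows; `h₂` monic).  Define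
recursively `H₁^(0) = h₁`, `H₂^(0) = h₂` and for `l ≥ 1` a pair `(H₁^(l), H₂^(l)) = (a, b)` of degrees `< e, < e'`
with `h₁ b + h₂ a = H^(l) - ∑_{0<i<l} H₁^(i) H₂^(l-i)`.  Then
`H₁ = ∑_{b ≤ e} Y^b ∑_l (H₁^(l))_b t^l` etc. are monic of degrees `e`, `e'` and `H₁ H₂ = H` (compare coefficients
of `t^l`).  (Alternative: Weierstrass preparation in Mathlib after a translation, when `h₁ = (Y-c)^e`; but the
general statement is wanted.)
-/

set_option autoImplicit false

open Polynomial Height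
open scoped Polynomial.Bivariate
namespace Pool.Agent.Helper38.DM

private theorem hf_mul_coeff {F : Type} [Field F] {a b : F[X]} {e e' : ℕ}
    (ha : ∀ n, e ≤ n → a.coeff n = 0) (hb : ∀ n, e' ≤ n → b.coeff n = 0) :
    ∀ n, e + e' ≤ n → (a * b).coeff n = 0 := by
  intro n hn
  rw [Polynomial.coeff_mul]
  refine Finset.sum_eq_zero fun x hx => ?_
  have h := Finset.HasAntidiagonal.mem_antidiagonal.1 hx
  rcases le_or_gt e x.1 with h1 | h1
  · rw [ha _ h1, zero_mul]
  · rw [hb _ (by omega), mul_zero]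

private theorem hf_bezout {F : Type} [Field F] {h₁ h₂ : F[X]} (hm₁ : h₁.Monic)
    (hcop : IsCoprime h₁ h₂) (c : F[X]) : ∃ p : F[X] × F[X],
      (∀ n, h₁.natDegree + h₂.natDegree ≤ n → c.coeff n = 0) →
      (h₁ * p.2 + h₂ * p.1 = c ∧ (∀ n, h₁.natDegree ≤ n → p.1.coeff n = 0) ∧
        ∀ n, h₂.natDegree ≤ n → p.2.coeff n = 0) := by
  obtain ⟨u, v, huv⟩ := hcop
  refine ⟨((c * v) %ₘ h₁, c * u + h₂ * ((c * v) /ₘ h₁)), fun hc => ?_⟩
  have hdiv := Polynomial.modByMonic_add_div (c * v) h₁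
  have ha : ∀ n, h₁.natDegree ≤ n → ((c * v) %ₘ h₁).coeff n = 0 := by
    intro n hn
    apply Polynomial.coeff_eq_zero_of_degree_lt
    refine lt_of_lt_of_le (Polynomial.degree_modByMonic_lt _ hm₁) ?_
    exact (Polynomial.degree_le_natDegree).trans (by exact_mod_cast hn)
  have heq : h₁ * (c * u + h₂ * ((c * v) /ₘ h₁)) + h₂ * ((c * v) %ₘ h₁) = c := by
    linear_combination c * huv + h₂ * hdiv
  refine ⟨heq, ha, ?_⟩
  intro n hn
  by_contra hne
  set b := c * u + h₂ * ((c * v) /ₘ h₁) with hb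
  have hb0 : b ≠ 0 := by
    intro h0
    rw [h0] at hne
    exact hne (Polynomial.coeff_zero n)
  have hnb : n ≤ b.natDegree := Polynomial.le_natDegree_of_ne_zero hne
  have h1 := Polynomial.coeff_mul_degree_add_degree h₁ b
  have h2 : h₁ * b = c - h₂ * ((c * v) %ₘ h₁) := eq_sub_of_add_eq heq
  rw [h2, Polynomial.coeff_sub, hc _ (by omega), hm₁.leadingCoeff, one_mul, zero_sub] at h1
  have h3 : ∀ m, h₂.natDegree + 1 ≤ m → h₂.coeff m = 0 := fun m hm =>
    Polynomial.coeff_eq_zero_of_natDegree_lt hm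
  have h4 : (h₂ * ((c * v) %ₘ h₁)).coeff (h₁.natDegree + b.natDegree) = 0 := by
    rw [Polynomial.coeff_mul]
    refine Finset.sum_eq_zero fun x hx => ?_
    have h := Finset.HasAntidiagonal.mem_antidiagonal.1 hx
    rcases le_or_gt h₁.natDegree x.2 with h5 | h5
    · rw [ha _ h5, mul_zero]
    · rw [h3 _ (by omega), zero_mul]
  rw [h4, neg_zero] at h1
  exact hb0 (Polynomial.leadingCoeff_eq_zero.1 h1.symm)

private noncomputable def hfSeq {F : Type} [Field F] (sol : F[X] → F[X] × F[X]) (h₁ h₂ : F[X])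
    (Hl : ℕ → F[X]) : ℕ → F[X] × F[X]
  | 0 => (h₁, h₂)
  | (l + 1) => sol (Hl (l + 1) - ∑ i : Fin l,
      (hfSeq sol h₁ h₂ Hl (i.1 + 1)).1 * (hfSeq sol h₁ h₂ Hl (l - i.1)).2)
termination_by l => l
decreasing_by
  · have := i.2
    omega
  · omega

private theorem hf_build {F : Type} [Field F] (s : ℕ → F[X]) (N : ℕ)
    (hs : ∀ l b, N < b → (s l).coeff b = 0) :
    ∃ P : Polynomial (PowerSeries F), ∀ b l, PowerSeries.coeff l (P.coeff b) = (s l).coeff b := by
  refine ⟨∑ b ∈ Finset.range (N + 1), Polynomial.monomial b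
    (PowerSeries.mk fun l => (s l).coeff b), fun b l => ?_⟩
  rw [Polynomial.finsetSum_coeff]
  simp only [Polynomial.coeff_monomial]
  rw [Finset.sum_ite_eq']
  split_ifs with h
  · rw [PowerSeries.coeff_mk]
  · rw [hs l b (by rw [Finset.mem_range] at h; omega), map_zero]

private theorem hf_monic {F : Type} [Field F] {s : ℕ → F[X]} {h : F[X]} (hm : h.Monic)
    (hs0 : s 0 = h) (hs : ∀ l, 1 ≤ l → ∀ n, h.natDegree ≤ n → (s l).coeff n = 0)
    {P : Polynomial (PowerSeries F)}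
    (hP : ∀ b l, PowerSeries.coeff l (P.coeff b) = (s l).coeff b) :
    P.Monic ∧ P.natDegree = h.natDegree := by
  have h1 : P.coeff h.natDegree = 1 := by
    ext l
    rw [hP, PowerSeries.coeff_one]
    rcases Nat.eq_zero_or_pos l with rfl | hl
    · rw [if_pos rfl, hs0]
      exact hm.coeff_natDegree
    · rw [if_neg (by omega), hs l hl _ le_rfl]
  have h2 : P.natDegree ≤ h.natDegree := by
    rw [Polynomial.natDegree_le_iff_coeff_eq_zero]
    intro b hb
    ext l
    rw [hP, map_zero]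
    rcases Nat.eq_zero_or_pos l with rfl | hl
    · rw [hs0]
      exact Polynomial.coeff_eq_zero_of_natDegree_lt hb
    · exact hs l hl b (le_of_lt hb)
  refine ⟨Polynomial.monic_of_natDegree_le_of_coeff_eq_one _ h2 h1, le_antisymm h2 ?_⟩
  apply Polynomial.le_natDegree_of_ne_zero
  rw [h1]
  exact one_ne_zero

theorem hensel_fac {F : Type} [Field F] (H : Polynomial (PowerSeries F)) (hH : H.Monic)
    (h₁ h₂ : F[X]) (hm₁ : h₁.Monic) (hm₂ : h₂.Monic) (hcop : IsCoprime h₁ h₂)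
    (hfac : H.map PowerSeries.constantCoeff = h₁ * h₂) :
    ∃ H₁ H₂ : Polynomial (PowerSeries F), H₁.Monic ∧ H₂.Monic ∧
      H₁.natDegree = h₁.natDegree ∧ H₂.natDegree = h₂.natDegree ∧ H = H₁ * H₂ := by
  have hn : H.natDegree = h₁.natDegree + h₂.natDegree := by
    rw [← hm₁.natDegree_mul hm₂, ← hfac, hH.natDegree_map]
  choose sol hsol using hf_bezout (h₂ := h₂) hm₁ hcop
  set Hl : ℕ → F[X] := fun l => ∑ b ∈ Finset.range (H.natDegree + 1),
    Polynomial.monomial b (PowerSeries.coeff l (H.coeff b)) with hHl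
  have hHlc : ∀ l b, (Hl l).coeff b = PowerSeries.coeff l (H.coeff b) := by
    intro l b
    rw [hHl]
    simp only [Polynomial.finsetSum_coeff, Polynomial.coeff_monomial]
    rw [Finset.sum_ite_eq']
    split_ifs with h
    · rfl
    · rw [Polynomial.coeff_eq_zero_of_natDegree_lt (by rw [Finset.mem_range] at h; omega),
        map_zero]
  have hHl0 : Hl 0 = h₁ * h₂ := by
    rw [← hfac]
    ext b
    rw [hHlc, Polynomial.coeff_map, PowerSeries.coeff_zero_eq_constantCoeff]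
  have hHls : ∀ l, 1 ≤ l → ∀ n, h₁.natDegree + h₂.natDegree ≤ n → (Hl l).coeff n = 0 := by
    intro l hl n hle
    rw [hHlc]
    rcases hle.eq_or_lt with h | h
    · rw [← h, ← hn, hH.coeff_natDegree, PowerSeries.coeff_one, if_neg (by omega)]
    · rw [Polynomial.coeff_eq_zero_of_natDegree_lt (by omega), map_zero]
  set S := hfSeq sol h₁ h₂ Hl with hS
  have hS0 : S 0 = (h₁, h₂) := by rw [hS, hfSeq]
  have hSs : ∀ l, S (l + 1) = sol (Hl (l + 1) - ∑ i : Fin l,
      (S (i.1 + 1)).1 * (S (l - i.1)).2) := by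
    intro l
    rw [hS, hfSeq]
  have inv : ∀ l, 1 ≤ l → (∀ n, h₁.natDegree ≤ n → (S l).1.coeff n = 0) ∧
      (∀ n, h₂.natDegree ≤ n → (S l).2.coeff n = 0) ∧
      h₁ * (S l).2 + h₂ * (S l).1 = Hl l - ∑ i : Fin (l - 1),
        (S (i.1 + 1)).1 * (S (l - 1 - i.1)).2 := by
    intro l
    induction l using Nat.strong_induction_on with
    | _ l ih =>
      intro hl
      obtain ⟨m, rfl⟩ : ∃ m, l = m + 1 := ⟨l - 1, by omega⟩
      have hc : ∀ n, h₁.natDegree + h₂.natDegree ≤ n →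
          (Hl (m + 1) - ∑ i : Fin m, (S (i.1 + 1)).1 * (S (m - i.1)).2).coeff n = 0 := by
        intro n hle
        rw [Polynomial.coeff_sub, hHls _ hl n hle, zero_sub, neg_eq_zero,
          Polynomial.finsetSum_coeff]
        refine Finset.sum_eq_zero fun i _ => ?_
        have hi := i.2
        exact hf_mul_coeff (ih (i.1 + 1) (by omega) (by omega)).1
          (ih (m - i.1) (by omega) (by omega)).2.1 n hle
      obtain ⟨h3, h4, h5⟩ := hsol _ hc
      rw [← hSs] at h3 h4 h5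
      exact ⟨h4, h5, h3⟩
  have hprod : ∀ l, ∑ x ∈ Finset.HasAntidiagonal.antidiagonal l, (S x.1).1 * (S x.2).2 = Hl l := by
    intro l
    rcases Nat.eq_zero_or_pos l with rfl | hl
    · rw [Finset.Nat.antidiagonal_zero, Finset.sum_singleton, hS0, hHl0]
    · obtain ⟨m, rfl⟩ : ∃ m, l = m + 1 := ⟨l - 1, by omega⟩
      have h3 := (inv (m + 1) hl).2.2
      rw [Nat.add_sub_cancel] at h3
      rw [Finset.Nat.sum_antidiagonal_eq_sum_range_succ (fun i j => (S i).1 * (S j).2) (m + 1),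
        Finset.sum_range_succ, Finset.sum_range_succ', Finset.sum_range, Nat.sub_self, hS0]
      simp only [Nat.sub_zero]
      have h4 : ∀ i : Fin m, (S (i.1 + 1)).1 * (S (m + 1 - (i.1 + 1))).2
          = (S (i.1 + 1)).1 * (S (m - i.1)).2 := by
        intro i
        rw [Nat.add_sub_add_right]
      rw [Finset.sum_congr rfl fun i _ => h4 i]
      linear_combination h3
  obtain ⟨H₁, hH₁⟩ := hf_build (fun l => (S l).1) h₁.natDegree (by
    intro l b hb
    rcases Nat.eq_zero_or_pos l with rfl | hl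
    · show (S 0).1.coeff b = 0
      rw [hS0]
      exact Polynomial.coeff_eq_zero_of_natDegree_lt hb
    · exact (inv l hl).1 b hb.le)
  obtain ⟨H₂, hH₂⟩ := hf_build (fun l => (S l).2) h₂.natDegree (by
    intro l b hb
    rcases Nat.eq_zero_or_pos l with rfl | hl
    · show (S 0).2.coeff b = 0
      rw [hS0]
      exact Polynomial.coeff_eq_zero_of_natDegree_lt hb
    · exact (inv l hl).2.1 b hb.le)
  obtain ⟨hM₁, hd₁⟩ := hf_monic (s := fun l => (S l).1) hm₁ (by show (S 0).1 = h₁; rw [hS0])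
    (fun l hl => (inv l hl).1) hH₁
  obtain ⟨hM₂, hd₂⟩ := hf_monic (s := fun l => (S l).2) hm₂ (by show (S 0).2 = h₂; rw [hS0])
    (fun l hl => (inv l hl).2.1) hH₂
  refine ⟨H₁, H₂, hM₁, hM₂, hd₁, hd₂, ?_⟩
  ext b l
  rw [← hHlc l b, ← hprod l, Polynomial.finsetSum_coeff, Polynomial.coeff_mul, map_sum]
  simp only [Polynomial.coeff_mul, PowerSeries.coeff_mul, hH₁, hH₂]
  exact Finset.sum_comm

end Pool.Agent.Helper38.DM
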